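import Mathlib

set_option autoImplicit false

/-! Integers composed of primes from a given finite set: basic counting. -/

namespace Pool.Agent.N469.SM
open Finset

/-- the integers of `[1, x]` all of whose prime factors lie in `P` -/
def SS (P : Finset ℕ) (x : ℕ) : Finset ℕ := (Icc 1 x).filter (fun n => n.primeFactors ⊆ P)

lemma mem_SS {P : Finset ℕ} {x n : ℕ} : n ∈ SS P x ↔ (1 ≤ n ∧ n ≤ x) ∧ n.primeFactors ⊆ P := by
  unfold SS
  rw [mem_filter, mem_Icc]

lemma one_mem_SS {P : Finset ℕ} {x : ℕ} (hx : 1 ≤ x) : 1 ∈ SS P x := by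
  rw [mem_SS]
  exact ⟨⟨le_rfl, hx⟩, by simp⟩

lemma SS_mono {P : Finset ℕ} {x x' : ℕ} (h : x ≤ x') : SS P x ⊆ SS P x' := by
  intro n hn
  rw [mem_SS] at hn ⊢
  exact ⟨⟨hn.1.1, hn.1.2.trans h⟩, hn.2⟩

lemma SS_sub {P Q : Finset ℕ} {x : ℕ} (h : P ⊆ Q) : SS P x ⊆ SS Q x := by
  intro n hn
  rw [mem_SS] at hn ⊢
  exact ⟨hn.1, hn.2.trans h⟩

lemma pf_mul {P : Finset ℕ} {a b : ℕ} (ha : a.primeFactors ⊆ P) (hb : b.primeFactors ⊆ P) : (a * b).primeFactors ⊆ P := by
  rcases eq_or_ne a 0 with h | h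
  · subst h; simp
  rcases eq_or_ne b 0 with h' | h'
  · subst h'; simp
  rw [Nat.primeFactors_mul h h']
  exact union_subset ha hb

lemma pf_dvd {P : Finset ℕ} {a b : ℕ} (hb : b ≠ 0) (h : a ∣ b) (hP : b.primeFactors ⊆ P) : a.primeFactors ⊆ P :=
  (Nat.primeFactors_mono h hb).trans hP

lemma card_SS_le (P : Finset ℕ) (x : ℕ) : (SS P x).card ≤ x := by
  unfold SS
  refine (card_filter_le _ _).trans ?_
  rw [Nat.card_Icc]
  omega

lemma card_SS_pos (P : Finset ℕ) {x : ℕ} (hx : 1 ≤ x) : 1 ≤ (SS P x).card := card_pos.2 ⟨1, one_mem_SS hx⟩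

lemma omega_le (n : ℕ) (hn : 1 ≤ n) : n.primeFactors.card ≤ Nat.log 2 n := by
  apply Nat.le_log_of_pow_le (by norm_num)
  have h1 : 2 ^ n.primeFactors.card ≤ ∏ p ∈ n.primeFactors, p := by
    rw [← prod_const]
    exact prod_le_prod' fun p hp => (Nat.prime_of_mem_primeFactors hp).two_le
  exact h1.trans (Nat.le_of_dvd hn (Nat.prod_primeFactors_dvd n))

/-- standing hypotheses on the set of primes -/
structure Hyp (P : Finset ℕ) (u N : ℕ) : Prop where
  prime : ∀ p ∈ P, p.Prime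
  le : ∀ p ∈ P, p ≤ u ^ 8
  card : u ^ 7 * Nat.log 2 N ≤ P.card
  two : 2 ≤ u

lemma ratio0 (P : Finset ℕ) (y : ℕ) (hP : ∀ p ∈ P, p.Prime) (hy : ∀ p ∈ P, p ≤ y) (x : ℕ) :
    P.card * (SS P (x / y)).card ≤ Nat.log 2 x * (SS P x).card := by
  rw [← card_product]
  have h1 : (P ×ˢ SS P (x / y)).card ≤ ((SS P x).sigma (fun n => n.primeFactors)).card := by
    apply card_le_card_of_injOn (fun a => (⟨a.1 * a.2, a.1⟩ : (_ : ℕ) × ℕ))
    · intro a ha
      rw [mem_coe, mem_product] at ha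
      have hp := hP _ ha.1
      have hm := mem_SS.1 ha.2
      rw [mem_coe, mem_sigma]
      refine ⟨mem_SS.2 ⟨⟨Nat.mul_pos hp.pos hm.1.1, ?_⟩, pf_mul ?_ hm.2⟩, ?_⟩
      · calc a.1 * a.2 ≤ y * (x / y) := Nat.mul_le_mul (hy _ ha.1) hm.1.2
          _ ≤ x := Nat.mul_div_le x y
      · rw [hp.primeFactors]
        exact singleton_subset_iff.2 ha.1
      · exact Nat.mem_primeFactors.2 ⟨hp, dvd_mul_right _ _, (Nat.mul_pos hp.pos hm.1.1).ne'⟩
    · intro a ha b hb hab
      rw [mem_coe, mem_product] at ha hb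
      simp only [Sigma.mk.injEq, heq_eq_eq] at hab
      obtain ⟨h1, h2⟩ := hab
      have hp := (hP _ ha.1).pos
      ext
      · exact h2
      · rw [h2] at h1 hp
        exact Nat.eq_of_mul_eq_mul_left hp h1
  refine h1.trans ?_
  rw [card_sigma, mul_comm, ← smul_eq_mul]
  refine sum_le_card_nsmul _ _ _ fun n hn => ?_
  have hn' := mem_SS.1 hn
  exact (omega_le n hn'.1.1).trans (Nat.log_mono_right hn'.1.2)

lemma ratio1 {P : Finset ℕ} {u N : ℕ} (h : Hyp P u N) {x : ℕ} (hx : x ≤ N) :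
    u ^ 7 * (SS P (x / u ^ 8)).card ≤ (SS P x).card := by
  have hu := h.two
  have hu8 : 2 ≤ u ^ 8 := by
    calc 2 ≤ u := hu
      _ ≤ u ^ 8 := Nat.le_self_pow (by norm_num) u
  rcases Nat.lt_or_ge x (u ^ 8) with h1 | h1
  · rw [Nat.div_eq_of_lt h1]
    have : SS P 0 = ∅ := by
      ext n
      rw [mem_SS]
      constructor
      · intro hh
        exfalso
        omega
      · intro hh
        simp at hh
    rw [this]
    simp
  · have h2 := ratio0 P (u ^ 8) h.prime h.le x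
    have h3 : Nat.log 2 x ≤ Nat.log 2 N := Nat.log_mono_right hx
    have h4 : 0 < Nat.log 2 N := Nat.log_pos (by norm_num) (by omega)
    have h5 := h.card
    have h6 : Nat.log 2 N * (u ^ 7 * (SS P (x / u ^ 8)).card) ≤ Nat.log 2 N * (SS P x).card := by
      calc Nat.log 2 N * (u ^ 7 * (SS P (x / u ^ 8)).card) = (u ^ 7 * Nat.log 2 N) * (SS P (x / u ^ 8)).card := by ring
        _ ≤ P.card * (SS P (x / u ^ 8)).card := Nat.mul_le_mul_right _ h5
        _ ≤ Nat.log 2 x * (SS P x).card := h2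
        _ ≤ _ := Nat.mul_le_mul_right _ h3
    exact Nat.le_of_mul_le_mul_left h6 h4

lemma ratio {P : Finset ℕ} {u N : ℕ} (h : Hyp P u N) (j : ℕ) : ∀ {x : ℕ}, x ≤ N →
    u ^ (7 * j) * (SS P (x / u ^ (8 * j))).card ≤ (SS P x).card := by
  induction j with
  | zero => intro x _; simp
  | succ j ih =>
    intro x hx
    have h1 := ih (x := x) hx
    have h2 : x / u ^ (8 * j) ≤ N := (Nat.div_le_self _ _).trans hx
    have h3 := ratio1 h h2
    rw [Nat.div_div_eq_div_mul, ← pow_add] at h3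
    calc u ^ (7 * (j + 1)) * (SS P (x / u ^ (8 * (j + 1)))).card =
        u ^ (7 * j) * (u ^ 7 * (SS P (x / u ^ (8 * j + 8))).card) := by
          rw [show 7 * (j + 1) = 7 * j + 7 by ring, pow_add, show 8 * (j + 1) = 8 * j + 8 by ring, mul_assoc]
      _ ≤ u ^ (7 * j) * (SS P (x / u ^ (8 * j))).card := Nat.mul_le_mul_left _ h3
      _ ≤ _ := h1

lemma ratioR {P : Finset ℕ} {u N : ℕ} (h : Hyp P u N) (j : ℕ) {x : ℕ} (hx : x ≤ N) :
    ((SS P (x / u ^ (8 * j))).card : ℝ) ≤ (u : ℝ) ^ (-(7 * j : ℤ)) * (SS P x).card := by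
  have h1 := ratio h j hx
  have hu : (0 : ℝ) < u := by exact_mod_cast (by have := h.two; omega : 0 < u)
  have h2 : (u : ℝ) ^ (7 * j) * ((SS P (x / u ^ (8 * j))).card : ℝ) ≤ (SS P x).card := by exact_mod_cast h1
  rw [zpow_neg, inv_mul_eq_div, le_div_iff₀ (by positivity)]
  have h3 : (u : ℝ) ^ (7 * j : ℤ) = (u : ℝ) ^ (7 * j) := by
    rw [← zpow_natCast]
    push_cast
    rfl
  rw [h3, mul_comm]
  exact h2

/-- every large integer has a divisor in a short multiplicative interval -/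
lemma exists_div (E y : ℕ) (hE : 1 ≤ E) : ∀ n : ℕ, E < n → (∀ q ∈ n.primeFactors, q ≤ y) → ∃ e, e ∣ n ∧ E < e ∧ e ≤ E * y := by
  intro n
  induction n using Nat.strong_induction_on with
  | _ n ih =>
    intro hn hq
    rcases Nat.lt_or_ge (E * y) n with h | h
    · have hn1 : n ≠ 1 := by omega
      have hp := Nat.minFac_prime hn1
      have hpd := Nat.minFac_dvd n
      obtain ⟨k, hk⟩ := hpd
      obtain ⟨p, hpp⟩ : ∃ p, p = n.minFac := ⟨_, rfl⟩
      rw [← hpp] at hp hk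
      have hpy : p ≤ y := hq p (Nat.mem_primeFactors.2 ⟨hp, ⟨k, hk⟩, by omega⟩)
      have hk0 : 0 < k := by
        rcases Nat.eq_zero_or_pos k with h0 | h0
        · rw [h0] at hk; omega
        · exact h0
      have hkE : E < k := by
        by_contra hcon
        push Not at hcon
        have : n ≤ E * y := by
          rw [hk, mul_comm]
          exact Nat.mul_le_mul hcon hpy
        omega
      have hkn : k < n := by
        rw [hk]
        exact (Nat.lt_mul_iff_one_lt_left hk0).2 hp.one_lt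
      obtain ⟨e, he1, he2, he3⟩ := ih k hkn hkE (fun q hq' => hq q (Nat.primeFactors_mono ⟨p, by rw [hk, mul_comm]⟩ (by omega) hq'))
      exact ⟨e, he1.trans ⟨p, by rw [hk, mul_comm]⟩, he2, he3⟩
    · exact ⟨n, dvd_rfl, hn, h⟩

end Pool.Agent.N469.SM
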