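import Pool.Agent.N469.SM.Dec
import Pool.Agent.H807R2.Dav1

set_option autoImplicit false

/-! The bilinear inequality. -/

namespace Pool.Agent.N469.SM
open Finset
open Pool.Agent.H807R2.Dav

lemma conj_ee' (x : ℝ) : (starRingEnd ℂ) (ee x) = ee (-x) := by
  rw [ee_eq, ee_eq, ← Complex.exp_conj]
  congr 1
  rw [map_mul, Complex.conj_I, Complex.conj_ofReal]
  push_cast
  ring

lemma mem_SP_iff {P : Finset ℕ} {p N D d m : ℕ} (hD : 1 ≤ D) (hd : D < d) :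
    m ∈ SP P p (N / d) ↔ m ∈ SP P p (N / D) ∧ d * m ≤ N := by
  rw [mem_SP, mem_SP, Nat.le_div_iff_mul_le (by omega), Nat.le_div_iff_mul_le (by omega)]
  constructor
  · rintro ⟨⟨h1, h2⟩, h3, h4⟩
    refine ⟨⟨⟨h1, ?_⟩, h3, h4⟩, by rw [mul_comm]; exact h2⟩
    exact (Nat.mul_le_mul_left _ hd.le).trans h2
  · rintro ⟨⟨⟨h1, h2⟩, h3, h4⟩, h5⟩
    exact ⟨⟨h1, by rw [mul_comm]; exact h5⟩, h3, h4⟩

/-- opening the square -/
lemma sq_out (P : Finset ℕ) (D N p y : ℕ) (hD : 1 ≤ D) (θ : ℝ) (κ : ℕ → ℕ → ℝ)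
    (hκ : ∀ m m' b : ℕ, m ≤ N / D → m' ≤ N / D → b ≤ D * y → ‖∑ d ∈ Ioc D b, ee ((d : ℝ) * (((m : ℝ) - m') * θ))‖ ≤ κ m m') :
    ∑ d ∈ Ioc D (D * y), ‖∑ m ∈ SP P p (N / d), ee (((d * m : ℕ) : ℝ) * θ)‖ ^ 2 ≤
      ∑ m ∈ SP P p (N / D), ∑ m' ∈ SP P p (N / D), κ m m' := by
  have h1 : ∀ d ∈ Ioc D (D * y), (((‖∑ m ∈ SP P p (N / d), ee (((d * m : ℕ) : ℝ) * θ)‖ : ℝ) : ℂ)) ^ 2 =
      ∑ m ∈ SP P p (N / D), ∑ m' ∈ SP P p (N / D),
        if d * m ≤ N ∧ d * m' ≤ N then ee ((d : ℝ) * (((m : ℝ) - m') * θ)) else 0 := by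
    intro d hd
    rw [mem_Ioc] at hd
    have e1 : ∑ m ∈ SP P p (N / d), ee (((d * m : ℕ) : ℝ) * θ) =
        ∑ m ∈ SP P p (N / D), if d * m ≤ N then ee (((d * m : ℕ) : ℝ) * θ) else 0 := by
      rw [← sum_filter]
      apply sum_congr _ (fun _ _ => rfl)
      ext m
      rw [mem_filter, mem_SP_iff hD hd.1]
    rw [← Complex.mul_conj', e1, map_sum, sum_mul_sum]
    apply sum_congr rfl
    intro m _
    apply sum_congr rfl
    intro m' _
    by_cases h3 : d * m ≤ N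
    · by_cases h4 : d * m' ≤ N
      · rw [if_pos h3, if_pos h4, if_pos ⟨h3, h4⟩, conj_ee', ← ee_add]
        congr 1
        push_cast
        ring
      · rw [if_neg h4, map_zero, mul_zero, if_neg (fun h => h4 h.2)]
    · rw [if_neg h3, zero_mul, if_neg (fun h => h3 h.1)]
  have hnn : 0 ≤ ∑ d ∈ Ioc D (D * y), ‖∑ m ∈ SP P p (N / d), ee (((d * m : ℕ) : ℝ) * θ)‖ ^ 2 :=
    sum_nonneg fun d _ => sq_nonneg _
  have h2 : ((∑ d ∈ Ioc D (D * y), ‖∑ m ∈ SP P p (N / d), ee (((d * m : ℕ) : ℝ) * θ)‖ ^ 2 : ℝ) : ℂ) =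
      ∑ m ∈ SP P p (N / D), ∑ m' ∈ SP P p (N / D), ∑ d ∈ Ioc D (D * y),
        if d * m ≤ N ∧ d * m' ≤ N then ee ((d : ℝ) * (((m : ℝ) - m') * θ)) else 0 := by
    rw [Complex.ofReal_sum]
    simp only [Complex.ofReal_pow]
    rw [sum_congr rfl h1, sum_comm]
    apply sum_congr rfl
    intro m _
    rw [sum_comm]
  have h3 : ∑ d ∈ Ioc D (D * y), ‖∑ m ∈ SP P p (N / d), ee (((d * m : ℕ) : ℝ) * θ)‖ ^ 2 =
      ‖((∑ d ∈ Ioc D (D * y), ‖∑ m ∈ SP P p (N / d), ee (((d * m : ℕ) : ℝ) * θ)‖ ^ 2 : ℝ) : ℂ)‖ := by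
    rw [Complex.norm_real, Real.norm_of_nonneg hnn]
  rw [h3, h2]
  refine (norm_sum_le _ _).trans ?_
  apply sum_le_sum
  intro m hm
  refine (norm_sum_le _ _).trans ?_
  apply sum_le_sum
  intro m' hm'
  rw [mem_SP] at hm hm'
  have hmN := hm.1.2
  have hmN' := hm'.1.2
  have hm0 : 0 < m := hm.1.1
  have hm0' : 0 < m' := hm'.1.1
  rw [← sum_filter]
  have h4 : (Ioc D (D * y)).filter (fun d => d * m ≤ N ∧ d * m' ≤ N) = Ioc D (min (D * y) (min (N / m) (N / m'))) := by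
    ext d
    rw [mem_filter, mem_Ioc, mem_Ioc, le_min_iff, le_min_iff, Nat.le_div_iff_mul_le hm0, Nat.le_div_iff_mul_le hm0']
    tauto
  rw [h4]
  exact hκ m m' _ hmN hmN' (min_le_left _ _)

/-- the bilinear inequality -/
theorem bilin (P : Finset ℕ) (D N y : ℕ) (hy1 : 1 ≤ y) (hP : ∀ p ∈ P, p.Prime) (hy : ∀ p ∈ P, p ≤ y) (hD : 1 ≤ D) (hDy : D * y ≤ N)
    (θ : ℝ) (κ : ℕ → ℕ → ℝ) (hκ0 : ∀ m m', 0 ≤ κ m m')
    (hκ : ∀ m m' b : ℕ, m ≤ N / D → m' ≤ N / D → b ≤ D * y → ‖∑ d ∈ Ioc D b, ee ((d : ℝ) * (((m : ℝ) - m') * θ))‖ ≤ κ m m') (W : ℝ)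
    (hW : ∀ m ∈ SS P (N / D), ∑ m' ∈ SS P (N / D), κ m m' ≤ W) :
    ‖∑ n ∈ SS P N, ee ((n : ℝ) * θ)‖ ≤ (SS P D).card + (y : ℝ) ^ 2 * √((SS P N).card * W) := by
  have hND : 1 ≤ N / D := by
    apply Nat.div_pos _ (by omega)
    calc D ≤ D * y := Nat.le_mul_of_pos_right _ hy1
      _ ≤ N := hDy
  have hW0 : 0 ≤ W := (sum_nonneg fun m' _ => hκ0 1 m').trans (hW 1 (one_mem_SS hND))
  rw [← sum_filter_add_sum_filter_not (SS P N) (D < ·)]
  refine (norm_add_le _ _).trans ?_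
  rw [add_comm]
  apply add_le_add
  · refine (norm_sum_le _ _).trans ?_
    simp only [norm_ee, sum_const, nsmul_eq_mul, mul_one]
    norm_cast
    apply card_le_card
    intro n hn
    rw [mem_filter, mem_SS] at hn
    rw [mem_SS]
    exact ⟨⟨hn.1.1.1, by omega⟩, hn.1.2⟩
  · rw [dec_sum P D N hD]
    refine (norm_sum_le _ _).trans ?_
    have h1 : ∀ p ∈ P, ‖∑ d ∈ BB P D p, ∑ m ∈ SP P p (N / d), ee (((d * m : ℕ) : ℝ) * θ)‖ ≤ (y : ℝ) * √((SS P N).card * W) := by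
      intro p hp
      have hpp := hP p hp
      have hpy := hy p hp
      obtain ⟨A, hA⟩ : ∃ A : ℕ → ℂ, A = fun d => ∑ m ∈ SP P p (N / d), ee (((d * m : ℕ) : ℝ) * θ) := ⟨_, rfl⟩
      have e0 : ∑ d ∈ BB P D p, ∑ m ∈ SP P p (N / d), ee (((d * m : ℕ) : ℝ) * θ) = ∑ d ∈ BB P D p, A d := by rw [hA]
      rw [e0]
      have e1 : ‖∑ d ∈ BB P D p, A d‖ ^ 2 ≤ (BB P D p).card * ∑ d ∈ BB P D p, ‖A d‖ ^ 2 := by
        refine (pow_le_pow_left₀ (norm_nonneg _) (norm_sum_le _ _) 2).trans ?_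
        exact sq_sum_le_card_mul_sum_sq
      have e2 : ∑ d ∈ BB P D p, ‖A d‖ ^ 2 ≤ ∑ d ∈ Ioc D (D * y), ‖A d‖ ^ 2 := by
        apply sum_le_sum_of_subset_of_nonneg
        · intro d hd
          rw [mem_BB] at hd
          rw [mem_Ioc]
          exact ⟨hd.1.1, hd.1.2.trans (Nat.mul_le_mul_left _ hpy)⟩
        · intro d _ _
          positivity
      have e3 : ∑ d ∈ Ioc D (D * y), ‖A d‖ ^ 2 ≤ ∑ m ∈ SP P p (N / D), ∑ m' ∈ SP P p (N / D), κ m m' := by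
        rw [hA]
        exact sq_out P D N p y hD θ κ hκ
      have hsub : SP P p (N / D) ⊆ SS P (N / D) := SS_sub (filter_subset _ _)
      have e4 : ∑ m ∈ SP P p (N / D), ∑ m' ∈ SP P p (N / D), κ m m' ≤ (SP P p (N / D)).card * W := by
        calc ∑ m ∈ SP P p (N / D), ∑ m' ∈ SP P p (N / D), κ m m' ≤ ∑ _m ∈ SP P p (N / D), W := by
              apply sum_le_sum
              intro m hm
              refine le_trans ?_ (hW m (hsub hm))
              exact sum_le_sum_of_subset_of_nonneg hsub fun m' _ _ => hκ0 m m'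
          _ = _ := by rw [sum_const, nsmul_eq_mul]
      have hpND : p ≤ N / D := by
        rw [Nat.le_div_iff_mul_le (by omega), mul_comm]
        exact (Nat.mul_le_mul_left _ hpy).trans hDy
      have e5 := SP_ratio P p (N / D) hpp.two_le hpND
      rw [Nat.div_div_eq_div_mul] at e5
      have e6 := BB_SP P D N p hD
      have e7 : ((BB P D p).card : ℝ) * (SP P p (N / D)).card ≤ (p : ℝ) ^ 2 * (SS P N).card := by
        have : (BB P D p).card * (SP P p (N / D)).card ≤ p ^ 2 * (SS P N).card := by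
          calc (BB P D p).card * (SP P p (N / D)).card ≤ (BB P D p).card * (p ^ 2 * (SP P p (N / (D * p))).card) :=
                Nat.mul_le_mul_left _ e5
            _ = p ^ 2 * ((BB P D p).card * (SP P p (N / (D * p))).card) := by ring
            _ ≤ _ := Nat.mul_le_mul_left _ e6
        exact_mod_cast this
      have e8 : ‖∑ d ∈ BB P D p, A d‖ ^ 2 ≤ (y : ℝ) ^ 2 * ((SS P N).card * W) := by
        calc ‖∑ d ∈ BB P D p, A d‖ ^ 2 ≤ (BB P D p).card * ((SP P p (N / D)).card * W) := by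
              refine e1.trans (mul_le_mul_of_nonneg_left ?_ (Nat.cast_nonneg _))
              exact e2.trans (e3.trans e4)
          _ = ((BB P D p).card * (SP P p (N / D)).card) * W := by ring
          _ ≤ ((p : ℝ) ^ 2 * (SS P N).card) * W := mul_le_mul_of_nonneg_right e7 hW0
          _ ≤ ((y : ℝ) ^ 2 * (SS P N).card) * W := by
              apply mul_le_mul_of_nonneg_right _ hW0
              apply mul_le_mul_of_nonneg_right _ (Nat.cast_nonneg _)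
              exact pow_le_pow_left₀ (Nat.cast_nonneg _) (by exact_mod_cast hpy) 2
          _ = _ := by ring
      have e9 := Real.sqrt_le_sqrt e8
      rw [Real.sqrt_sq (norm_nonneg _), Real.sqrt_mul (by positivity), Real.sqrt_sq (Nat.cast_nonneg _)] at e9
      exact e9
    refine (sum_le_sum h1).trans ?_
    rw [sum_const, nsmul_eq_mul]
    have hPy : P.card ≤ y := by
      have : P ⊆ Icc 1 y := fun p hp => mem_Icc.2 ⟨(hP p hp).pos, hy p hp⟩
      have := card_le_card this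
      rwa [Nat.card_Icc, Nat.add_sub_cancel] at this
    calc (P.card : ℝ) * ((y : ℝ) * √((SS P N).card * W)) ≤ (y : ℝ) * ((y : ℝ) * √((SS P N).card * W)) := by
          apply mul_le_mul_of_nonneg_right (by exact_mod_cast hPy) (by positivity)
      _ = _ := by ring

end Pool.Agent.N469.SM
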