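import Pool.Agent.N469.SM.Base

set_option autoImplicit false

/-! The decomposition of the integers composed of primes from `P` by their largest prime factors. -/

namespace Pool.Agent.N469.SM
open Finset

/-- the integers of `[1, x]` composed of primes of `P` which are at most `p` -/
def SP (P : Finset ℕ) (p x : ℕ) : Finset ℕ := SS (P.filter (· ≤ p)) x

/-- the minimal integers above `D`, with smallest prime `p` -/
def BB (P : Finset ℕ) (D p : ℕ) : Finset ℕ :=
  (Ioc D (D * p)).filter (fun d => d.primeFactors ⊆ P ∧ d.minFac = p ∧ d / p ≤ D)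

lemma mem_BB {P : Finset ℕ} {D p d : ℕ} :
    d ∈ BB P D p ↔ (D < d ∧ d ≤ D * p) ∧ d.primeFactors ⊆ P ∧ d.minFac = p ∧ d / p ≤ D := by
  unfold BB
  rw [mem_filter, mem_Ioc]

lemma mem_SP {P : Finset ℕ} {p x m : ℕ} :
    m ∈ SP P p x ↔ (1 ≤ m ∧ m ≤ x) ∧ m.primeFactors ⊆ P ∧ ∀ q ∈ m.primeFactors, q ≤ p := by
  unfold SP
  rw [mem_SS]
  constructor
  · rintro ⟨h1, h2⟩
    exact ⟨h1, fun q hq => (mem_filter.1 (h2 hq)).1, fun q hq => (mem_filter.1 (h2 hq)).2⟩
  · rintro ⟨h1, h2, h3⟩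
    exact ⟨h1, fun q hq => mem_filter.2 ⟨h2 hq, h3 q hq⟩⟩

/-- a valid decomposition -/
def Val (D d m : ℕ) : Prop := D < d ∧ d / d.minFac ≤ D ∧ 1 ≤ m ∧ ∀ q ∈ m.primeFactors, q ≤ d.minFac

lemma val_ex (D : ℕ) (hD : 1 ≤ D) : ∀ n, D < n → ∃ d m, n = d * m ∧ Val D d m := by
  intro n
  induction n using Nat.strong_induction_on with
  | _ n ih =>
    intro hn
    have hn1 : n ≠ 1 := by omega
    have hp := Nat.minFac_prime hn1
    obtain ⟨k, hk⟩ := Nat.minFac_dvd n
    rcases Nat.lt_or_ge D (n / n.minFac) with h | h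
    · have hk2 : n / n.minFac = k := by
        conv_lhs => rw [hk]
        rw [← hk]
        exact Nat.div_eq_of_eq_mul_right hp.pos hk
      rw [hk2] at h
      have hk0 : 0 < k := by omega
      have hkn : k < n := by
        conv_rhs => rw [hk]
        exact (Nat.lt_mul_iff_one_lt_left hk0).2 hp.one_lt
      obtain ⟨d, m, h1, h2, h3, h4, h5⟩ := ih k hkn h
      refine ⟨d, m * n.minFac, ?_, h2, h3, Nat.mul_pos h4 hp.pos, ?_⟩
      · calc n = n.minFac * k := hk
          _ = n.minFac * (d * m) := by rw [← h1]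
          _ = d * (m * n.minFac) := by ring
      · intro q hq
        rw [Nat.primeFactors_mul (by omega) hp.ne_zero, mem_union, hp.primeFactors, mem_singleton] at hq
        rcases hq with hq | hq
        · exact h5 q hq
        · rw [hq]
          have hd1 : d ≠ 1 := by omega
          apply Nat.minFac_le_of_dvd (Nat.minFac_prime hd1).two_le
          exact (Nat.minFac_dvd d).trans ((Dvd.intro m h1.symm).trans (Dvd.intro_left n.minFac hk.symm))
    · exact ⟨n, 1, by rw [mul_one], hn, h, le_rfl, by simp⟩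

lemma minFac_dvd_right {D d m : ℕ} (hD : 1 ≤ D) (hv : Val D d m) (hm : m ≠ 1) : (d * m).minFac ∣ m := by
  obtain ⟨h2, h3, h4, h5⟩ := hv
  have hd1 : d ≠ 1 := by omega
  have hn1 : d * m ≠ 1 := by
    intro h
    exact hm (Nat.eq_one_of_mul_eq_one_left h)
  have hp := Nat.minFac_prime hn1
  have hr := Nat.minFac_prime hm
  have hrd : m.minFac ≤ d.minFac := h5 _ (Nat.mem_primeFactors.2 ⟨hr, Nat.minFac_dvd m, by omega⟩)
  have hpr : (d * m).minFac ≤ m.minFac := Nat.minFac_le_of_dvd hr.two_le ((Nat.minFac_dvd m).trans (dvd_mul_left _ _))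
  rcases hp.dvd_mul.1 (Nat.minFac_dvd (d * m)) with h | h
  · have h6 : d.minFac ≤ (d * m).minFac := Nat.minFac_le_of_dvd hp.two_le h
    have h7 : (d * m).minFac = m.minFac := by omega
    rw [h7]
    exact Nat.minFac_dvd m
  · exact h

lemma val_uniq (D : ℕ) (hD : 1 ≤ D) : ∀ n d m d' m' : ℕ, n = d * m → n = d' * m' → Val D d m → Val D d' m' → d = d' := by
  intro n
  induction n using Nat.strong_induction_on with
  | _ n ih =>
    have one_side : ∀ d d' m' : ℕ, n = d → n = d' * m' → Val D d 1 → Val D d' m' → m' ≠ 1 → False := by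
      intro d d' m' h1 h2 hv hv' hm
      have h3 := minFac_dvd_right hD hv' hm
      rw [← h2] at h3
      have h4 := hv.2.1
      rw [← h1] at h4
      have h5 := hv'.1
      have h6 : n.minFac ≤ m' := Nat.le_of_dvd hv'.2.2.1 h3
      have h7 : d' ≤ n / n.minFac := by
        rw [Nat.le_div_iff_mul_le (Nat.minFac_pos n)]
        calc d' * n.minFac ≤ d' * m' := Nat.mul_le_mul_left _ h6
          _ = n := h2.symm
      omega
    intro d m d' m' h1 h2 hv hv'
    by_cases hm : m = 1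
    · by_cases hm' : m' = 1
      · rw [hm, mul_one] at h1
        rw [hm', mul_one] at h2
        omega
      · exfalso
        rw [hm, mul_one] at h1
        rw [hm] at hv
        exact one_side d d' m' h1 h2 hv hv' hm'
    · by_cases hm' : m' = 1
      · exfalso
        rw [hm', mul_one] at h2
        rw [hm'] at hv'
        exact one_side d' d m h2 h1 hv' hv hm
      · have h3 := minFac_dvd_right hD hv hm
        have h3' := minFac_dvd_right hD hv' hm'
        rw [← h1] at h3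
        rw [← h2] at h3'
        obtain ⟨k, hk⟩ := h3
        obtain ⟨k', hk'⟩ := h3'
        have hn1 : n ≠ 1 := by
          intro h
          rw [h] at h1
          exact hm (Nat.eq_one_of_mul_eq_one_left h1.symm)
        have hp := Nat.minFac_prime hn1
        have hk0 : 0 < k := by
          rcases Nat.eq_zero_or_pos k with h | h
          · rw [h, mul_zero] at hk
            have := hv.2.2.1
            omega
          · exact h
        have hk0' : 0 < k' := by
          rcases Nat.eq_zero_or_pos k' with h | h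
          · rw [h, mul_zero] at hk'
            have := hv'.2.2.1
            omega
          · exact h
        have h4 : n = n.minFac * (d * k) := by
          calc n = d * m := h1
            _ = d * (n.minFac * k) := by rw [← hk]
            _ = _ := by ring
        have h4' : n = n.minFac * (d' * k') := by
          calc n = d' * m' := h2
            _ = d' * (n.minFac * k') := by rw [← hk']
            _ = _ := by ring
        have h5 : d * k = d' * k' := Nat.eq_of_mul_eq_mul_left hp.pos (h4.symm.trans h4')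
        have hd0 : 0 < d := by have := hv.1; omega
        have h6 : d * k < n := by
          conv_rhs => rw [h4]
          exact (Nat.lt_mul_iff_one_lt_left (Nat.mul_pos hd0 hk0)).2 hp.one_lt
        refine ih (d * k) h6 d k d' k' rfl h5 ⟨hv.1, hv.2.1, hk0, fun q hq => hv.2.2.2 q ?_⟩
          ⟨hv'.1, hv'.2.1, hk0', fun q hq => hv'.2.2.2 q ?_⟩
        · exact Nat.primeFactors_mono (by rw [hk]; exact dvd_mul_left _ _) (by have := hv.2.2.1; omega) hq
        · exact Nat.primeFactors_mono (by rw [hk']; exact dvd_mul_left _ _) (by have := hv'.2.2.1; omega) hq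

/-- the decomposition of sums -/
theorem dec_sum (P : Finset ℕ) (D N : ℕ) (hD : 1 ≤ D) (f : ℕ → ℂ) :
    ∑ n ∈ (SS P N).filter (D < ·), f n = ∑ p ∈ P, ∑ d ∈ BB P D p, ∑ m ∈ SP P p (N / d), f (d * m) := by
  have h0 : ∀ p ∈ P, ∑ d ∈ BB P D p, ∑ m ∈ SP P p (N / d), f (d * m) =
      ∑ a ∈ (BB P D p).sigma (fun d => SP P p (N / d)), f (a.1 * a.2) := fun p _ => by rw [sum_sigma]
  rw [sum_congr rfl h0]
  rw [← sum_sigma P (fun p => (BB P D p).sigma (fun d => SP P p (N / d))) (fun a => f (a.2.1 * a.2.2))]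
  symm
  apply sum_nbij (fun a : (_ : ℕ) × (_ : ℕ) × ℕ => a.2.1 * a.2.2)
  · rintro ⟨p, d, m⟩ ha
    rw [mem_sigma, mem_sigma, mem_BB, mem_SP] at ha
    obtain ⟨hp, ⟨⟨h1, h2⟩, h3, h4, h5⟩, ⟨h6, h7⟩, h8, h9⟩ := ha
    simp only at hp h1 h2 h3 h4 h5 h6 h7 h8 h9 ⊢
    rw [mem_filter, mem_SS]
    refine ⟨⟨⟨Nat.mul_pos (by omega) h6, ?_⟩, pf_mul h3 h8⟩, ?_⟩
    · calc d * m ≤ d * (N / d) := Nat.mul_le_mul_left _ h7
        _ ≤ N := Nat.mul_div_le N d
    · calc D < d := h1
        _ ≤ d * m := Nat.le_mul_of_pos_right _ h6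
  · rintro ⟨p, d, m⟩ ha ⟨p', d', m'⟩ ha' heq
    rw [mem_coe, mem_sigma, mem_sigma, mem_BB, mem_SP] at ha ha'
    obtain ⟨hp, ⟨⟨h1, h2⟩, h3, h4, h5⟩, ⟨h6, h7⟩, h8, h9⟩ := ha
    obtain ⟨hp', ⟨⟨h1', h2'⟩, h3', h4', h5'⟩, ⟨h6', h7'⟩, h8', h9'⟩ := ha'
    simp only at hp h1 h2 h3 h4 h5 h6 h7 h8 h9 hp' h1' h2' h3' h4' h5' h6' h7' h8' h9' heq
    have hv : Val D d m := ⟨h1, by rw [h4]; exact h5, h6, fun q hq => by rw [h4]; exact h9 q hq⟩
    have hv' : Val D d' m' := ⟨h1', by rw [h4']; exact h5', h6', fun q hq => by rw [h4']; exact h9' q hq⟩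
    have h10 := val_uniq D hD (d * m) d m d' m' rfl heq hv hv'
    subst h10
    have h11 : m = m' := Nat.eq_of_mul_eq_mul_left (by omega) heq
    subst h11
    have h12 : p = p' := by rw [← h4, ← h4']
    subst h12
    rfl
  · intro n hn
    rw [mem_coe, mem_filter, mem_SS] at hn
    obtain ⟨⟨⟨h1, h2⟩, h3⟩, h4⟩ := hn
    obtain ⟨d, m, h5, h6, h7, h8, h9⟩ := val_ex D hD n h4
    rw [Set.mem_image]
    have hd1 : d ≠ 1 := by omega
    have hp := Nat.minFac_prime hd1
    have hdn : d ∣ n := ⟨m, h5⟩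
    have hdP : d.primeFactors ⊆ P := pf_dvd (by omega) hdn h3
    refine ⟨⟨d.minFac, d, m⟩, ?_, h5.symm⟩
    rw [mem_coe, mem_sigma, mem_sigma, mem_BB, mem_SP]
    refine ⟨hdP (Nat.mem_primeFactors.2 ⟨hp, Nat.minFac_dvd d, by omega⟩), ⟨⟨h6, ?_⟩, hdP, rfl, h7⟩, ⟨h8, ?_⟩, ?_, h9⟩
    · simp only
      calc d = d / d.minFac * d.minFac := (Nat.div_mul_cancel (Nat.minFac_dvd d)).symm
        _ ≤ D * d.minFac := Nat.mul_le_mul_right _ h7
    · simp only
      rw [Nat.le_div_iff_mul_le (by omega), mul_comm, ← h5]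
      exact h2
    · exact pf_dvd (by omega) ⟨d, by rw [h5, mul_comm]⟩ h3
  · rintro ⟨p, d, m⟩ _
    rfl

/-- products of the two parts are distinct -/
lemma BB_SP (P : Finset ℕ) (D N p : ℕ) (hD : 1 ≤ D) :
    (BB P D p).card * (SP P p (N / (D * p))).card ≤ (SS P N).card := by
  rw [← card_product]
  apply card_le_card_of_injOn (fun a => a.1 * a.2)
  · rintro ⟨d, m⟩ ha
    rw [mem_coe, mem_product, mem_BB, mem_SP] at ha
    obtain ⟨⟨⟨h1, h2⟩, h3, h4, h5⟩, ⟨h6, h7⟩, h8, h9⟩ := ha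
    simp only at h1 h2 h3 h4 h5 h6 h7 h8 h9 ⊢
    rw [mem_coe, mem_SS]
    refine ⟨⟨Nat.mul_pos (by omega) h6, ?_⟩, pf_mul h3 h8⟩
    calc d * m ≤ (D * p) * (N / (D * p)) := Nat.mul_le_mul h2 h7
      _ ≤ N := Nat.mul_div_le N _
  · rintro ⟨d, m⟩ ha ⟨d', m'⟩ ha' heq
    rw [mem_coe, mem_product, mem_BB, mem_SP] at ha ha'
    obtain ⟨⟨⟨h1, h2⟩, h3, h4, h5⟩, ⟨h6, h7⟩, h8, h9⟩ := ha
    obtain ⟨⟨⟨h1', h2'⟩, h3', h4', h5'⟩, ⟨h6', h7'⟩, h8', h9'⟩ := ha'
    simp only at h1 h2 h3 h4 h5 h6 h7 h8 h9 h1' h2' h3' h4' h5' h6' h7' h8' h9' heq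
    have hv : Val D d m := ⟨h1, by rw [h4]; exact h5, h6, fun q hq => by rw [h4]; exact h9 q hq⟩
    have hv' : Val D d' m' := ⟨h1', by rw [h4']; exact h5', h6', fun q hq => by rw [h4']; exact h9' q hq⟩
    have h10 := val_uniq D hD (d * m) d m d' m' rfl heq hv hv'
    subst h10
    have h11 : m = m' := Nat.eq_of_mul_eq_mul_left (by omega) heq
    subst h11
    rfl

/-- the loss from one prime -/
lemma SP_ratio (P : Finset ℕ) (p x : ℕ) (hp : 2 ≤ p) (hx : p ≤ x) : (SP P p x).card ≤ p ^ 2 * (SP P p (x / p)).card := by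
  classical
  have h1 : ∀ n ∈ SP P p x, ∃ e, e ∣ n ∧ e < p ^ 2 ∧ n / e ≤ x / p := by
    intro n hn
    obtain ⟨⟨h1, h2⟩, h3, h4⟩ := mem_SP.1 hn
    rcases Nat.lt_or_ge n p with h | h
    · refine ⟨n, dvd_rfl, by nlinarith, ?_⟩
      rw [Nat.div_self h1]
      exact Nat.div_pos hx (by omega)
    · obtain ⟨e, he1, he2, he3⟩ := exists_div (p - 1) p (by omega) n (by omega) h4
      refine ⟨e, he1, lt_of_le_of_lt he3 ?_, ?_⟩
      · rw [pow_two]
        exact Nat.mul_lt_mul_of_pos_right (by omega) (by omega)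
      · calc n / e ≤ x / e := Nat.div_le_div_right h2
          _ ≤ x / p := Nat.div_le_div_left (by omega) (by omega)
  choose! e he using h1
  calc (SP P p x).card ≤ ((range (p ^ 2)) ×ˢ (SP P p (x / p))).card := by
        apply card_le_card_of_injOn (fun n => (e n, n / e n))
        · intro n hn
          rw [mem_coe] at hn
          obtain ⟨a1, a2, a3⟩ := he n hn
          obtain ⟨⟨h1, h2⟩, h3, h4⟩ := mem_SP.1 hn
          have he0 : 0 < e n := Nat.pos_of_dvd_of_pos a1 h1
          have hd : n / e n ∣ n := Nat.div_dvd_of_dvd a1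
          rw [mem_coe, mem_product, mem_range, mem_SP]
          refine ⟨a2, ⟨Nat.div_pos (Nat.le_of_dvd h1 a1) he0, a3⟩, pf_dvd (by omega) hd h3, fun q hq => h4 q ?_⟩
          exact Nat.primeFactors_mono hd (by omega) hq
        · intro n hn n' hn' heq
          rw [mem_coe] at hn hn'
          simp only [Prod.mk.injEq] at heq
          obtain ⟨b1, b2⟩ := heq
          have c1 := Nat.div_mul_cancel (he n hn).1
          have c2 := Nat.div_mul_cancel (he n' hn').1
          rw [← c1, ← c2, b1]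
          rw [b1] at b2
          rw [b2]
    _ = _ := by rw [card_product, card_range]

end Pool.Agent.N469.SM
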