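import Pool.Agent.W93.AU15
import Pool.Agent.N469.PT.Ws

set_option autoImplicit false

/-! Random integers whose characteristic function is large at few frequencies only. -/

namespace Pool.Agent.N469.SM
open Finset
open Pool.Agent.H807R2.Dav
open Pool.Agent.H373R2.T7
open Pool.Agent.W93.DG
open Pool.Agent.W93.RD
open Pool.Agent.W93.TD
open Pool.Agent.W93.AU

/-- the characteristic function is small outside a set of few frequencies -/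
structure FL (X M C V : ℕ) {ι : Type} (Ω : Finset ι) (p : ι → ℝ) (Y : ι → ℤ) : Prop where
  nonneg : ∀ ω ∈ Ω, 0 ≤ p ω
  le_one : ∑ ω ∈ Ω, p ω ≤ 1
  few : ∃ T : Finset ℕ, (T.card : ℝ) ≤ Real.log X ^ C ∧ ∀ t ∈ range M, t ∉ T →
    ‖∑ ω ∈ Ω, ((p ω : ℝ) : ℂ) * ee ((Y ω : ℝ) * ((t : ℝ) / (M : ℝ)))‖ ≤ 1 / Real.log X ^ V

lemma char_mod {ι : Type} (Ω : Finset ι) (p : ι → ℝ) (Y : ι → ℤ) (M : ℕ) (hM : 1 ≤ M) (t : ℕ) :
    ∑ ω ∈ Ω, ((p ω : ℝ) : ℂ) * ee ((Y ω : ℝ) * ((t : ℝ) / (M : ℝ))) =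
      ∑ ω ∈ Ω, ((p ω : ℝ) : ℂ) * ee ((Y ω : ℝ) * (((t % M : ℕ) : ℝ) / (M : ℝ))) := by
  apply sum_congr rfl
  intro ω _
  congr 1
  have hM0 : (M : ℝ) ≠ 0 := by exact_mod_cast (by omega : M ≠ 0)
  obtain ⟨k, hk⟩ : ∃ k : ℕ, t = t % M + M * k := ⟨t / M, (Nat.mod_add_div t M).symm⟩
  have h1 : (t : ℝ) = ((t % M : ℕ) : ℝ) + M * (k : ℝ) := by exact_mod_cast hk
  have h2 : (Y ω : ℝ) * ((t : ℝ) / (M : ℝ)) = (Y ω : ℝ) * (((t % M : ℕ) : ℝ) / (M : ℝ)) + ((Y ω * (k : ℤ) : ℤ) : ℝ) := by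
    conv_lhs => rw [h1]
    push_cast
    field_simp
  rw [h2, ee_add_int]

/-- the second moment is small -/
theorem fl_var (U C : ℕ) : ∃ B : ℕ, ∀ Ez : ℕ, ∃ X₀ : ℕ, ∀ X : ℕ, X₀ ≤ X → ∀ M : ℕ, X ≤ M →
    ∀ z : ℕ, Real.log X ^ B ≤ z → (z : ℝ) ≤ Real.log X ^ Ez →
    ∀ (ι : Type) (Ω : Finset ι) (p : ι → ℝ) (Y : ι → ℤ), FL X M C (U + 6) Ω p Y →
    ∀ (f : ℕ → ℝ) (Fb : ℝ), 0 ≤ Fb → (∀ n ∈ Icc 1 X, |f n| ≤ Fb) →
    ∀ A : ℕ → ℂ, (∀ r, ‖A r‖ = ‖FF f X M r‖ * ‖FF (fun n => ArithmeticFunction.vonMangoldt n - lamz z n) X M r‖) →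
    ∑ ω ∈ Ω, p ω * ‖EE A M (Y ω)‖ ^ 2 ≤ (Fb * (M : ℝ) * (X : ℝ)) ^ 2 / Real.log X ^ U := by
  classical
  obtain ⟨B, hsup⟩ := sup_diff (U + 6 + C)
  refine ⟨B, fun Ez => ?_⟩
  obtain ⟨N1, h1⟩ := hsup Ez
  obtain ⟨N2, h2⟩ := G_sq Ez
  obtain ⟨N3, h3⟩ := ev_L' 20
  refine ⟨N1 + N2 + N3 + 4, fun X hX M hXM z hz1 hz2 ι Ω p Yv hlaw f Fb hFb0 hFb Af hAf => ?_⟩
  have hL := h3 X (by omega)
  obtain ⟨L, hLd⟩ : ∃ L, L = Real.log (X : ℝ) := ⟨_, rfl⟩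
  rw [← hLd] at hL hz1 hz2 ⊢
  have hL0 : 0 < L := by linarith
  have hL1 : 1 ≤ L := by linarith
  have hX0 : (0 : ℝ) < X := by exact_mod_cast (by omega : 0 < X)
  have hM0 : (0 : ℝ) < M := by exact_mod_cast (by omega : 0 < M)
  have hXMr : (X : ℝ) ≤ M := by exact_mod_cast hXM
  have hz : 1 ≤ z := by
    have : (1 : ℝ) ≤ z := (one_le_pow₀ hL1).trans hz1
    exact_mod_cast this
  obtain ⟨T0, hT1, hT2⟩ := hlaw.few
  rw [← hLd] at hT1 hT2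
  obtain ⟨G, hG⟩ : ∃ G : ℕ → ℂ, G = FF (fun n => ArithmeticFunction.vonMangoldt n - lamz z n) X M := ⟨_, rfl⟩
  rw [← hG] at hAf
  have hG2 := h2 X (by omega) M hXM z hz (by rw [← hLd]; exact hz2)
  rw [← hG, ← hLd] at hG2
  have hGs : ∀ r, ‖G r‖ ≤ X / L ^ (U + 6 + C) := by
    intro r
    rw [hG, hLd]
    exact h1 X (by omega) z (by rw [← hLd]; exact hz1) (by rw [← hLd]; exact hz2) ((r : ℝ) / (M : ℝ))
  obtain ⟨Fn, hFn⟩ : ∃ Fn : ℕ → ℝ, Fn = fun r => ‖FF f X M r‖ := ⟨_, rfl⟩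
  have hAf' : ∀ r, ‖Af r‖ = Fn r * ‖G r‖ := fun r => by rw [hAf, hFn]
  have hFn0 : ∀ r, 0 ≤ Fn r := fun r => by rw [hFn]; exact norm_nonneg _
  have hFn1 : ∀ r, Fn r ≤ Fb * X := by
    intro r
    rw [hFn]
    simp only
    unfold FF
    refine (norm_sum_le _ _).trans ?_
    have e1 : ∀ n ∈ Icc 1 X, ‖((f n : ℝ) : ℂ) * ee ((n : ℝ) * ((r : ℝ) / (M : ℝ)))‖ ≤ Fb := by
      intro n hn
      rw [norm_mul, norm_ee, mul_one, Complex.norm_real, Real.norm_eq_abs]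
      exact hFb n hn
    refine (sum_le_card_nsmul _ _ _ e1).trans (le_of_eq ?_)
    rw [Nat.card_Icc, nsmul_eq_mul, Nat.add_sub_cancel, mul_comm]
  have hF2 : ∑ r ∈ range M, Fn r ^ 2 ≤ M * (Fb ^ 2 * X) := by
    rw [hFn]
    simp only
    rw [FF_pars f X M (by omega) hXM]
    apply mul_le_mul_of_nonneg_left _ (Nat.cast_nonneg _)
    have h1 : ∀ n ∈ Icc 1 X, f n ^ 2 ≤ Fb ^ 2 := by
      intro n hn
      rw [← sq_abs]
      exact pow_le_pow_left₀ (abs_nonneg _) (hFb n hn) 2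
    refine (sum_le_sum h1).trans (le_of_eq ?_)
    rw [sum_const, Nat.card_Icc, nsmul_eq_mul, Nat.add_sub_cancel, mul_comm]
  obtain ⟨g, hg⟩ : ∃ g : ℕ → ℝ, g = fun t => if t % M ∈ T0 then 1 else 1 / L ^ (U + 6) := ⟨_, rfl⟩
  have hgt : ∀ t, g t = if t % M ∈ T0 then 1 else 1 / L ^ (U + 6) := fun t => by rw [hg]
  have hvar := gen_var Ω p hlaw.nonneg Yv M (by omega) Af g (by
    intro t
    rw [hgt]
    split_ifs with hc
    · refine (norm_sum_le _ _).trans (le_trans ?_ hlaw.le_one)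
      apply sum_le_sum
      intro ω hω
      rw [norm_mul, norm_ee, mul_one, Complex.norm_real, Real.norm_of_nonneg (hlaw.nonneg ω hω)]
    · rw [char_mod Ω p Yv M (by omega) t]
      exact hT2 _ (mem_range.2 (Nat.mod_lt _ (by omega))) hc)
  refine hvar.trans ?_
  clear hvar
  obtain ⟨T, hTd⟩ : ∃ T, T = ∑ r ∈ range M, Fn r * ‖G r‖ := ⟨_, rfl⟩
  have hT0 : 0 ≤ T := by rw [hTd]; exact sum_nonneg fun r _ => mul_nonneg (hFn0 r) (norm_nonneg _)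
  obtain ⟨Y, hY⟩ : ∃ Y, Y = Fb * M * X := ⟨_, rfl⟩
  have hY0 : 0 ≤ Y := by rw [hY]; positivity
  have hT' : T ≤ 4 * L ^ 2 * Y := by
    have e1 := Real.sum_mul_le_sqrt_mul_sqrt (range M) Fn (fun r => ‖G r‖)
    have e2 : T ≤ √(M * (Fb ^ 2 * X)) * √(M * (14 * X * L ^ 2)) := by
      rw [hTd]
      refine e1.trans ?_
      exact mul_le_mul (Real.sqrt_le_sqrt hF2) (Real.sqrt_le_sqrt hG2) (Real.sqrt_nonneg _) (Real.sqrt_nonneg _)
    refine e2.trans ((sqrt_num2 M X Fb L L 1 hM0.le hX0.le hFb0 hL0.le (by rw [one_mul])).trans ?_)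
    rw [← hY]
    have : L ≤ L ^ 2 := by nlinarith
    nlinarith
  -- the rows
  have hrow : ∀ r ∈ range M, ∑ r' ∈ range M, ‖Af r'‖ * g (r' + (M - r)) ≤ Y / L ^ (U + 6) + 1 / L ^ (U + 6) * T := by
    intro r hr
    rw [mem_range] at hr
    rw [← sum_filter_add_sum_filter_not (range M) (fun r' => (r' + (M - r)) % M ∈ T0)]
    apply add_le_add
    · have e1 : ∀ r' ∈ (range M).filter (fun r' => (r' + (M - r)) % M ∈ T0),
          ‖Af r'‖ * g (r' + (M - r)) ≤ Fb * X * (X / L ^ (U + 6 + C)) := by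
        intro r' hr'
        rw [mem_filter] at hr'
        rw [hgt, if_pos hr'.2, mul_one, hAf']
        exact mul_le_mul (hFn1 r') (hGs r') (norm_nonneg _) (by positivity)
      refine (sum_le_card_nsmul _ _ _ e1).trans ?_
      have e2 : ((range M).filter (fun r' => (r' + (M - r)) % M ∈ T0)).card ≤ T0.card := by
        apply card_le_card_of_injOn (fun r' => (r' + (M - r)) % M)
        · intro r' hr'
          rw [mem_coe, mem_filter] at hr'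
          rw [mem_coe]
          exact hr'.2
        · intro a ha b hb hab
          rw [mem_coe, mem_filter, mem_range] at ha hb
          simp only at hab
          have h3 : a ≡ b [MOD M] := Nat.ModEq.add_right_cancel' (M - r) hab
          unfold Nat.ModEq at h3
          rwa [Nat.mod_eq_of_lt ha.1, Nat.mod_eq_of_lt hb.1] at h3
      have e3 : (((range M).filter (fun r' => (r' + (M - r)) % M ∈ T0)).card : ℝ) ≤ L ^ C :=
        (by exact_mod_cast e2 : (_ : ℝ) ≤ (T0.card : ℝ)).trans hT1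
      rw [nsmul_eq_mul]
      calc _ ≤ L ^ C * (Fb * X * (X / L ^ (U + 6 + C))) := mul_le_mul_of_nonneg_right e3 (by positivity)
        _ = Fb * X * X / L ^ (U + 6) := by
            rw [pow_add L (U + 6) C]
            field_simp
        _ ≤ Y / L ^ (U + 6) := by
            apply div_le_div_of_nonneg_right _ (by positivity)
            rw [hY]
            gcongr
    · have e1 : ∀ r' ∈ (range M).filter (fun r' => ¬ (r' + (M - r)) % M ∈ T0),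
          ‖Af r'‖ * g (r' + (M - r)) ≤ (Fn r' * ‖G r'‖) * (1 / L ^ (U + 6)) := by
        intro r' hr'
        rw [mem_filter] at hr'
        rw [hgt, if_neg hr'.2, hAf']
      refine (sum_le_sum e1).trans ?_
      rw [← sum_mul, mul_comm]
      apply mul_le_mul_of_nonneg_left _ (by positivity)
      rw [hTd]
      exact sum_le_sum_of_subset_of_nonneg (filter_subset _ _) fun _ _ _ => mul_nonneg (hFn0 _) (norm_nonneg _)
  have hsum2 : ∑ r ∈ range M, ‖Af r‖ * ∑ r' ∈ range M, ‖Af r'‖ * g (r' + (M - r)) ≤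
      T * (Y / L ^ (U + 6) + 1 / L ^ (U + 6) * T) := by
    have : ∀ r ∈ range M, ‖Af r‖ * ∑ r' ∈ range M, ‖Af r'‖ * g (r' + (M - r)) ≤
        (Fn r * ‖G r‖) * (Y / L ^ (U + 6) + 1 / L ^ (U + 6) * T) := fun r hr => by
      rw [hAf' r]
      exact mul_le_mul_of_nonneg_left (hrow r hr) (mul_nonneg (hFn0 _) (norm_nonneg _))
    refine (sum_le_sum this).trans (le_of_eq ?_)
    rw [← sum_mul, hTd]
  refine hsum2.trans ?_
  rw [← hY]
  exact var_num2 T Y 4 L U hL1 hY0 hT0 (by norm_num) hT' (by linarith)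

/-- one shift with a given law -/
theorem fl_one (U C : ℕ) : ∃ B0 : ℕ, ∀ Ez : ℕ, ∃ X₀ : ℕ, ∀ X : ℕ, X₀ ≤ X → ∀ M : ℕ, 2 * X ≤ M →
    ∀ z : ℕ, Real.log X ^ B0 ≤ z → (z : ℝ) ≤ Real.log X ^ Ez →
    ∀ (ι : Type) (Ω : Finset ι) (p : ι → ℝ) (Y : ι → ℤ), FL X M C (2 * U + 6) Ω p Y → ∑ ω ∈ Ω, p ω = 1 →
    ∀ N : ℕ, (∀ ω ∈ Ω, -(X : ℤ) < Y ω ∧ (N : ℤ) + Y ω ≤ (X : ℤ)) → N ≤ X →
    ∀ Kc : ℝ, 0 < Kc → ∀ G : ℕ → ℝ, (∀ n ∈ Icc 1 N, |G n| ≤ Kc) →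
    ∑ ω ∈ Ω, p ω * |∑ n ∈ Icc 1 N, G n * (lamI ((n : ℤ) + Y ω) - lamzI z ((n : ℤ) + Y ω))| ≤
      Kc * ((X : ℝ) / Real.log X ^ U) := by
  classical
  obtain ⟨B, hB⟩ := fl_var (2 * U) C
  refine ⟨B, fun Ez => ?_⟩
  obtain ⟨k₀, h0⟩ := hB Ez
  refine ⟨k₀ + 3, fun X hX M hXM z hz1 hz2 ι Ω p Y hlaw hp1 N hY hNX Kc hK G hG => ?_⟩
  obtain ⟨f, hf⟩ : ∃ f : ℕ → ℝ, f = fun n => if n ≤ N then G n else 0 := ⟨_, rfl⟩
  have hf0 : ∀ n, N < n → f n = 0 := by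
    intro n hn
    rw [hf]
    simp only
    rw [if_neg (by omega)]
  have hf1 : ∀ n, n ≤ N → f n = G n := by
    intro n hn
    rw [hf]
    simp only
    rw [if_pos hn]
  have h1 := h0 X (by omega) M (by omega) z hz1 hz2 ι Ω p Y hlaw f Kc hK.le (by
    intro n hn
    rcases Nat.lt_or_ge N n with h | h
    · rw [hf0 n h, abs_zero]; exact hK.le
    · rw [hf1 n h]; exact hG n (mem_Icc.2 ⟨(mem_Icc.1 hn).1, h⟩))
    (fun r => (starRingEnd ℂ) (FF f X M r) *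
        FF (fun n => ArithmeticFunction.vonMangoldt n - lamz z n) X M r) (by
      intro r
      rw [norm_mul, RCLike.norm_conj])
  have hX1 : 1 ≤ X := by omega
  have hM0 : (0 : ℝ) < (M : ℝ) := by exact_mod_cast (by omega : 0 < M)
  have hX0 : (0 : ℝ) < (X : ℝ) := by exact_mod_cast hX1
  have hL0 : 0 < Real.log X := Real.log_pos (by exact_mod_cast (by omega : 1 < X))
  apply cs_w Ω p _ hlaw.nonneg hp1 _ (by positivity)
  obtain ⟨T, hT⟩ : ∃ T : ι → ℝ, T = fun ω => ∑ n ∈ Icc 1 N, G n * (lamI ((n : ℤ) + Y ω) - lamzI z ((n : ℤ) + Y ω)) := ⟨_, rfl⟩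
  have h2 : ∀ ω ∈ Ω, p ω * ‖EE (fun r => (starRingEnd ℂ) (FF f X M r) *
      FF (fun n => ArithmeticFunction.vonMangoldt n - lamz z n) X M r) M (Y ω)‖ ^ 2 =
      (M : ℝ) ^ 2 * (p ω * T ω ^ 2) := by
    intro ω hω
    have h3 := EE_corr f (fun n => ArithmeticFunction.vonMangoldt n - lamz z n) X M N hX1 hXM
      hNX hf0 (Y ω) (hY ω hω).1 (hY ω hω).2
    rw [h3, Complex.norm_real, Real.norm_eq_abs, sq_abs]
    have h4 : ∑ n ∈ Icc 1 N, f n * (if 1 ≤ (n : ℤ) + Y ω then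
        (fun n => ArithmeticFunction.vonMangoldt n - lamz z n) ((n : ℤ) + Y ω).toNat else 0) = T ω := by
      rw [hT]
      simp only
      apply sum_congr rfl
      intro n hn
      rw [mem_Icc] at hn
      rw [hf1 n hn.2]
      unfold lamI lamzI
      by_cases h7 : 1 ≤ (n : ℤ) + Y ω
      · rw [if_pos h7, if_pos h7, if_pos h7]
      · rw [if_neg h7, if_neg h7, if_neg h7, sub_zero]
    rw [h4]
    ring
  rw [sum_congr rfl h2, ← mul_sum] at h1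
  have h5 : ∑ ω ∈ Ω, p ω * T ω ^ 2 ≤ (Kc * ((X : ℝ) / Real.log X ^ U)) ^ 2 := by
    have h6 : (M : ℝ) ^ 2 * ∑ ω ∈ Ω, p ω * T ω ^ 2 ≤
        (M : ℝ) ^ 2 * (Kc * ((X : ℝ) / Real.log X ^ U)) ^ 2 := by
      refine h1.trans (le_of_eq ?_)
      rw [mul_comm 2 U, pow_mul]
      ring
    exact le_of_mul_le_mul_left h6 (by positivity)
  rw [hT] at h5
  exact h5

end Pool.Agent.N469.SM
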